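import Mathlib
import Pool.Agent.Helper384.BzSL8
import Pool.Agent.Helper384.BzM8
import Pool.Agent.Helper384.BzP3
import Pool.Agent.Helper384.BzR13

set_option autoImplicit false
open Finset Classical

namespace Pool.Agent.Results.MP_8501c9_pr.AllRanges

/-- vertex set of the grid graph `ℤ_n^d` -/
abbrev V (n d : ℕ) : Type := Fin d → Fin n

/-- adjacency in the grid: equal in all coordinates but one, where they differ by exactly `1` -/
def Adj {n d : ℕ} (x y : V n d) : Prop :=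
  ∃ i, (∀ j, j ≠ i → x j = y j) ∧ ((x i : ℕ) + 1 = (y i : ℕ) ∨ (y i : ℕ) + 1 = (x i : ℕ))

/-- one step of the `r`-neighbour bootstrap process: `A ∪ {v : v has at least r neighbours in A}` -/
noncomputable def step {n d : ℕ} (r : ℕ) (A : Finset (V n d)) : Finset (V n d) :=
  A ∪ univ.filter (fun v => r ≤ (A.filter (fun u => Adj v u)).card)

/-- `A` percolates: every vertex is infected after finitely many steps -/
def Percolates {n d : ℕ} (r : ℕ) (A : Finset (V n d)) : Prop :=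
  ∀ v : V n d, ∃ t : ℕ, v ∈ (step r)^[t] A

/-- probability that the `p`-random set percolates -/
noncomputable def percProb (n d r : ℕ) (p : ℝ) : ℝ :=
  ∑ A : Finset (V n d),
    if Percolates r A then p ^ A.card * (1 - p) ^ (Fintype.card (V n d) - A.card) else 0

/-- the critical probability `p_c(ℤ_n^d, r)` -/
noncomputable def pc (n d r : ℕ) : ℝ := sInf {p : ℝ | 0 ≤ p ∧ p ≤ 1 ∧ 1 / 2 ≤ percProb n d r p}

/-- the volume `k^(d-r) (k+1)^r` of the most balanced box in dimension `d` with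
`∑ (side length - 1) = j`, where `j = (k-1) d + r`, `0 ≤ r < d` -/
def vol (d j : ℕ) : ℕ := (j / d + 1) ^ (d - j % d) * (j / d + 2) ^ (j % d)

/-- `H_c(n,d)`: the value of `H` at which `∑_{j ≥ 0} max(0, H - log vol(d,j))` (a sum with finitely
many nonzero terms, continuous and strictly increasing in `H ≥ 0`) reaches `2 d log n` -/
noncomputable def Hc (n d : ℕ) : ℝ :=
  sInf {H : ℝ | 0 ≤ H ∧
    2 * (d : ℝ) * Real.log n ≤ ∑' j : ℕ, max 0 (H - Real.log (vol d j))}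

theorem pc_eq (n d r : ℕ) : pc n d r = Pool.Agent.Helper384.Bz.pc n d r := rfl

theorem Hc_eq (n d : ℕ) : Hc n d = Pool.Agent.Helper384.Bz.Hc n d := rfl

theorem factor_eq {n d : ℕ} (hd1 : 1 ≤ d) :
    Real.exp (-(Hc n d)) / (d : ℝ) ^ 2 = Real.exp (-(Hc n d) - 2 * Real.log d) := by
  have hdpos : (0 : ℝ) < d := by exact_mod_cast hd1
  rw [Real.exp_sub]
  congr 1
  rw [two_mul, Real.exp_add, Real.exp_log hdpos, sq]

theorem part2 (K : ℝ) : ∃ (C : ℝ) (d0 : ℕ), 0 < C ∧ ∀ d n : ℕ, d0 ≤ d →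
    (d : ℝ) ≤ K * Real.log n → Real.log n ≤ K * d →
      C⁻¹ * (Real.exp (-(Hc n d)) / (d : ℝ) ^ 2) ≤ pc n d 2 ∧
      pc n d 2 ≤ C * (Real.exp (-(Hc n d)) / (d : ℝ) ^ 2) := by
  obtain ⟨C, d0, h⟩ := Pool.Agent.Helper384.Bz.main2 K
  refine ⟨Real.exp C, max d0 1, Real.exp_pos _, fun d n hd h1 h2 => ?_⟩
  have hd0 : d0 ≤ d := le_trans (le_max_left _ _) hd
  have hd1 : 1 ≤ d := le_trans (le_max_right _ _) hd
  obtain ⟨hpos, habs⟩ := h d n hd0 h1 h2
  rw [← pc_eq, ← Hc_eq] at habs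
  rw [← pc_eq] at hpos
  have hlog : Real.log (1 / pc n d 2) = - Real.log (pc n d 2) := by
    rw [one_div, Real.log_inv]
  rw [hlog, abs_le] at habs
  rw [factor_eq hd1, ← Real.exp_neg, ← Real.exp_add, ← Real.exp_add]
  constructor
  · rw [← Real.le_log_iff_exp_le hpos]
    linarith [habs.2]
  · rw [← Real.log_le_iff_le_exp hpos]
    linarith [habs.1]

theorem part3 (K : ℝ) : ∃ (C : ℝ) (d0 : ℕ), 0 < C ∧ ∀ d n : ℕ, d0 ≤ d →
    (d : ℝ) ≤ K * Real.log n → Real.log (Real.log n) ≤ (d : ℝ) ^ (1 / 4 : ℝ) →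
      C⁻¹ * (Real.exp (-(Hc n d)) / (d : ℝ) ^ 2) ≤ pc n d 2 ∧
      pc n d 2 ≤ C * (2 + Real.log n / d) ^ 4 * (Real.exp (-(Hc n d)) / (d : ℝ) ^ 2) := by
  obtain ⟨C, d0, h⟩ := Pool.Agent.Helper384.Bz.main3 K
  refine ⟨Real.exp C, max d0 1, Real.exp_pos _, fun d n hd h1 h2 => ?_⟩
  have hd0 : d0 ≤ d := le_trans (le_max_left _ _) hd
  have hd1 : 1 ≤ d := le_trans (le_max_right _ _) hd
  have hL0 : (0 : ℝ) ≤ Real.log n := Real.log_natCast_nonneg n
  have hR : (0 : ℝ) < 2 + Real.log n / d := by positivity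
  obtain ⟨hpos, hlo, hup⟩ := h d n hd0 h1 h2
  rw [← pc_eq, ← Hc_eq] at hlo hup
  rw [← pc_eq] at hpos
  have hlog : Real.log (1 / pc n d 2) = - Real.log (pc n d 2) := by
    rw [one_div, Real.log_inv]
  rw [hlog] at hlo hup
  have h4 : (2 + Real.log n / d) ^ 4 = Real.exp (4 * Real.log (2 + Real.log n / d)) := by
    rw [show (4 : ℝ) * Real.log (2 + Real.log n / d) =
      ((4 : ℕ) : ℝ) * Real.log (2 + Real.log n / d) by norm_num, Real.exp_nat_mul,
      Real.exp_log hR]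
  rw [factor_eq hd1, h4, ← Real.exp_neg, ← Real.exp_add, ← Real.exp_add, ← Real.exp_add]
  constructor
  · rw [← Real.le_log_iff_exp_le hpos]
    linarith
  · rw [← Real.log_le_iff_le_exp hpos]
    linarith

theorem part4 (K : ℝ) : ∃ (C : ℝ) (d0 : ℕ), 0 < C ∧ ∀ d n : ℕ, d0 ≤ d →
    (d : ℝ) ≤ Real.log n → (d : ℝ) ^ 2 * Real.log (Real.log n) ≤ K * Real.log n →
    50 * Real.log (Real.log n) ≤ d →
      C⁻¹ * (d / (2 * Real.log n)) ^ (d - 1) ≤ pc n d 2 ∧
      pc n d 2 ≤ C * (d / (2 * Real.log n)) ^ (d - 1) := by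
  obtain ⟨C, d0, hC, h⟩ := Pool.Agent.Helper384.Bz.main5 K
  refine ⟨C, d0, hC, fun d n hd h1 h2 h3 => ?_⟩
  rw [pc_eq]
  exact h d n hd h1 h2 h3

/-- **`p_c(ℤ_n^d, 2)` in the regime `d → ∞`, `d = O(log n)`.** For `d ≥ d0` and `d ≤ K log n`:
* always `p_c = exp(-H_c(n,d) + O(log d · log log n))`;
* if `log n ≤ K d`, then `p_c` is `d⁻² exp(-H_c(n,d))` up to a constant factor;
* if `log log n ≤ d^(1/4)`, the same up to the factor `C (2 + log n / d)^4` above and a constant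
  factor below;
* if `50 log log n ≤ d` and `d² log log n ≤ K log n`, then `p_c` is `(d / (2 log n))^(d-1)` up to a
  constant factor. -/
theorem result (K : ℝ) : ∃ (C : ℝ) (d0 : ℕ), 0 < C ∧ ∀ d n : ℕ, d0 ≤ d →
    (d : ℝ) ≤ K * Real.log n →
    (0 < pc n d 2 ∧
      |Real.log (1 / pc n d 2) - Hc n d| ≤ C * Real.log d * Real.log (Real.log n)) ∧
    (Real.log n ≤ K * d →
      C⁻¹ * (Real.exp (-(Hc n d)) / (d : ℝ) ^ 2) ≤ pc n d 2 ∧
      pc n d 2 ≤ C * (Real.exp (-(Hc n d)) / (d : ℝ) ^ 2)) ∧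
    (Real.log (Real.log n) ≤ (d : ℝ) ^ (1 / 4 : ℝ) →
      C⁻¹ * (Real.exp (-(Hc n d)) / (d : ℝ) ^ 2) ≤ pc n d 2 ∧
      pc n d 2 ≤ C * (2 + Real.log n / d) ^ 4 * (Real.exp (-(Hc n d)) / (d : ℝ) ^ 2)) ∧
    (50 * Real.log (Real.log n) ≤ d → (d : ℝ) ^ 2 * Real.log (Real.log n) ≤ K * Real.log n →
      C⁻¹ * (d / (2 * Real.log n)) ^ (d - 1) ≤ pc n d 2 ∧
      pc n d 2 ≤ C * (d / (2 * Real.log n)) ^ (d - 1)) := by
  obtain ⟨C1, d1, h1⟩ := Pool.Agent.Helper384.Bz.S.main K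
  obtain ⟨C2, d2, hC2, h2⟩ := part2 K
  obtain ⟨C3, d3, hC3, h3⟩ := part3 K
  obtain ⟨C4, d4, hC4, h4⟩ := part4 K
  obtain ⟨m, hm⟩ := exists_nat_ge (3 * |K|)
  have e1 : C1 ≤ |C1| := le_abs_self _
  have e0 : 0 ≤ |C1| := abs_nonneg _
  refine ⟨|C1| + C2 + C3 + C4, d1 + d2 + d3 + d4 + m + 3, by positivity, fun d n hd hn => ?_⟩
  have hd3 : (3 : ℝ) ≤ d := by
    have : 3 ≤ d := by omega
    exact_mod_cast this
  have hmd : (m : ℝ) ≤ d := by
    have : m ≤ d := by omega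
    exact_mod_cast this
  have hL0 : (0 : ℝ) ≤ Real.log n := Real.log_natCast_nonneg n
  have hKL : K * Real.log n ≤ |K| * Real.log n := mul_le_mul_of_nonneg_right (le_abs_self K) hL0
  have hKp : 0 < |K| := by
    rcases (abs_nonneg K).lt_or_eq with h | h
    · exact h
    · rw [← h] at hKL; linarith
  have hL3 : 3 ≤ Real.log n := by
    have : |K| * 3 ≤ |K| * Real.log n := by linarith
    exact le_of_mul_le_mul_left this hKp
  have hLL : 1 ≤ Real.log (Real.log n) := by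
    rw [Real.le_log_iff_exp_le (by linarith)]
    have := Real.exp_one_lt_d9
    linarith
  have hinv : ∀ {c x : ℝ}, 0 < c → c ≤ |C1| + C2 + C3 + C4 → 0 ≤ x →
      (|C1| + C2 + C3 + C4)⁻¹ * x ≤ c⁻¹ * x := by
    intro c x hc hcC hx
    exact mul_le_mul_of_nonneg_right (inv_anti₀ hc hcC) hx
  have hx : 0 ≤ Real.exp (-(Hc n d)) / (d : ℝ) ^ 2 := by positivity
  refine ⟨?_, fun g2 => ?_, fun g3 => ?_, fun g4 g4' => ?_⟩
  · obtain ⟨a, b⟩ := h1 d n (by omega) hn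
    rw [← pc_eq] at a
    rw [← pc_eq, ← Hc_eq] at b
    refine ⟨a, b.trans ?_⟩
    have hld : 0 ≤ Real.log d := Real.log_nonneg (by linarith)
    have : C1 ≤ |C1| + C2 + C3 + C4 := by linarith
    exact mul_le_mul_of_nonneg_right (mul_le_mul_of_nonneg_right this hld) (by linarith)
  · obtain ⟨a, b⟩ := h2 d n (by omega) hn g2
    refine ⟨(hinv hC2 (by linarith) hx).trans a, b.trans ?_⟩
    exact mul_le_mul_of_nonneg_right (by linarith) hx
  · obtain ⟨a, b⟩ := h3 d n (by omega) hn g3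
    refine ⟨(hinv hC3 (by linarith) hx).trans a, b.trans ?_⟩
    refine mul_le_mul_of_nonneg_right (mul_le_mul_of_nonneg_right (by linarith) ?_) hx
    positivity
  · have hdL : (d : ℝ) ≤ Real.log n := by
      have k1 : (d : ℝ) ^ 2 ≤ (d : ℝ) ^ 2 * Real.log (Real.log n) := by nlinarith [sq_nonneg (d : ℝ)]
      have k2 : (d : ℝ) ^ 2 ≤ |K| * Real.log n := by linarith
      have k3 : |K| * (d : ℝ) ≤ |K| * Real.log n := by nlinarith
      exact le_of_mul_le_mul_left k3 hKp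
    obtain ⟨a, b⟩ := h4 d n (by omega) hdL g4' g4
    have hy : 0 ≤ ((d : ℝ) / (2 * Real.log n)) ^ (d - 1) := by positivity
    refine ⟨(hinv hC4 (by linarith) hy).trans a, b.trans ?_⟩
    exact mul_le_mul_of_nonneg_right (by linarith) hy

end Pool.Agent.Results.MP_8501c9_pr.AllRanges
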