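import Mathlib
import Pool.Agent.Helper384.BzR13

set_option autoImplicit false
open Finset Classical

namespace Pool.Agent.Results.MP_8501c9_pr.ExplicitTheta

/-- vertex set of the grid graph `ℤ_n^d` -/
abbrev V (n d : ℕ) : Type := Fin d → Fin n

/-- adjacency in the grid: equal in all coordinates but one, where they differ by exactly `1` -/
def Adj {n d : ℕ} (x y : V n d) : Prop :=
  ∃ i, (∀ j, j ≠ i → x j = y j) ∧ ((x i : ℕ) + 1 = (y i : ℕ) ∨ (y i : ℕ) + 1 = (x i : ℕ))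

/-- one step of the `r`-neighbour bootstrap process: `A ∪ {v : v has at least r neighbours in A}` -/
noncomputable def step {n d : ℕ} (r : ℕ) (A : Finset (V n d)) : Finset (V n d) :=
  A ∪ univ.filter (fun v => r ≤ (A.filter (fun u => Adj v u)).card)

/-- `A` percolates: every vertex is infected after finitely many steps -/
def Percolates {n d : ℕ} (r : ℕ) (A : Finset (V n d)) : Prop :=
  ∀ v : V n d, ∃ t : ℕ, v ∈ (step r)^[t] A

/-- probability that the `p`-random set percolates -/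
noncomputable def percProb (n d r : ℕ) (p : ℝ) : ℝ :=
  ∑ A : Finset (V n d),
    if Percolates r A then p ^ A.card * (1 - p) ^ (Fintype.card (V n d) - A.card) else 0

/-- the critical probability `p_c(ℤ_n^d, r)` -/
noncomputable def pc (n d r : ℕ) : ℝ := sInf {p : ℝ | 0 ≤ p ∧ p ≤ 1 ∧ 1 / 2 ≤ percProb n d r p}

theorem pc_eq (n d r : ℕ) : pc n d r = Pool.Agent.Helper384.Bz.pc n d r := rfl

/-- **`p_c(ℤ_n^d, 2)` up to a constant factor, in closed form, for
`50 log log n ≤ d ≤ √(K log n / log log n)`**: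
`C⁻¹ (d / (2 log n))^(d-1) ≤ p_c(ℤ_n^d, 2) ≤ C (d / (2 log n))^(d-1)`. -/
theorem result (K : ℝ) : ∃ (C : ℝ) (d0 : ℕ), 0 < C ∧ ∀ d n : ℕ, d0 ≤ d →
    (d : ℝ) ≤ Real.log n → (d : ℝ) ^ 2 * Real.log (Real.log n) ≤ K * Real.log n →
    50 * Real.log (Real.log n) ≤ d →
      C⁻¹ * (d / (2 * Real.log n)) ^ (d - 1) ≤ pc n d 2 ∧
      pc n d 2 ≤ C * (d / (2 * Real.log n)) ^ (d - 1) := by
  obtain ⟨C, d0, hC, h⟩ := Pool.Agent.Helper384.Bz.main5 K
  refine ⟨C, d0, hC, fun d n hd h1 h2 h3 => ?_⟩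
  rw [pc_eq]
  exact h d n hd h1 h2 h3

end Pool.Agent.Results.MP_8501c9_pr.ExplicitTheta
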