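import Mathlib
import Pool.Agent.Helper384.BzP3

set_option autoImplicit false
open Finset Classical

namespace Pool.Agent.Results.MP_8501c9_pr.GeneralRange

/-- vertex set of the grid graph `ℤ_n^d` -/
abbrev V (n d : ℕ) : Type := Fin d → Fin n

/-- adjacency in the grid: equal in all coordinates but one, where they differ by exactly `1` -/
def Adj {n d : ℕ} (x y : V n d) : Prop :=
  ∃ i, (∀ j, j ≠ i → x j = y j) ∧ ((x i : ℕ) + 1 = (y i : ℕ) ∨ (y i : ℕ) + 1 = (x i : ℕ))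

/-- one step of the `r`-neighbour bootstrap process: `A ∪ {v : v has at least r neighbours in A}` -/
noncomputable def step {n d : ℕ} (r : ℕ) (A : Finset (V n d)) : Finset (V n d) :=
  A ∪ univ.filter (fun v => r ≤ (A.filter (fun u => Adj v u)).card)

/-- `A` percolates: every vertex is infected after finitely many steps -/
def Percolates {n d : ℕ} (r : ℕ) (A : Finset (V n d)) : Prop :=
  ∀ v : V n d, ∃ t : ℕ, v ∈ (step r)^[t] A

/-- probability that the `p`-random set percolates -/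
noncomputable def percProb (n d r : ℕ) (p : ℝ) : ℝ :=
  ∑ A : Finset (V n d),
    if Percolates r A then p ^ A.card * (1 - p) ^ (Fintype.card (V n d) - A.card) else 0

/-- the critical probability `p_c(ℤ_n^d, r)` -/
noncomputable def pc (n d r : ℕ) : ℝ := sInf {p : ℝ | 0 ≤ p ∧ p ≤ 1 ∧ 1 / 2 ≤ percProb n d r p}

/-- the volume `k^(d-r) (k+1)^r` of the most balanced box in dimension `d` with
`∑ (side length - 1) = j`, where `j = (k-1) d + r`, `0 ≤ r < d` -/
def vol (d j : ℕ) : ℕ := (j / d + 1) ^ (d - j % d) * (j / d + 2) ^ (j % d)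

/-- `H_c(n,d)`: the value of `H` at which `∑_{j ≥ 0} max(0, H - log vol(d,j))` (a sum with finitely
many nonzero terms, continuous and strictly increasing in `H ≥ 0`) reaches `2 d log n` -/
noncomputable def Hc (n d : ℕ) : ℝ :=
  sInf {H : ℝ | 0 ≤ H ∧
    2 * (d : ℝ) * Real.log n ≤ ∑' j : ℕ, max 0 (H - Real.log (vol d j))}

theorem pc_eq (n d r : ℕ) : pc n d r = Pool.Agent.Helper384.Bz.pc n d r := rfl

theorem Hc_eq (n d : ℕ) : Hc n d = Pool.Agent.Helper384.Bz.Hc n d := rfl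

/-- **`p_c(ℤ_n^d, 2)` for `(log log n)^4 ≤ d ≤ K log n`**:
`C⁻¹ d⁻² exp(-H_c(n,d)) ≤ p_c(ℤ_n^d,2) ≤ C (2 + log n / d)^4 d⁻² exp(-H_c(n,d))`, where `H_c(n,d)`
is the root of `∑_{j ≥ 0} (H - log vol(d,j))_+ = 2 d log n`. -/
theorem result (K : ℝ) : ∃ (C : ℝ) (d0 : ℕ), 0 < C ∧ ∀ d n : ℕ, d0 ≤ d →
    (d : ℝ) ≤ K * Real.log n → Real.log (Real.log n) ≤ (d : ℝ) ^ (1 / 4 : ℝ) →
      C⁻¹ * (Real.exp (-(Hc n d)) / (d : ℝ) ^ 2) ≤ pc n d 2 ∧
      pc n d 2 ≤ C * (2 + Real.log n / d) ^ 4 * (Real.exp (-(Hc n d)) / (d : ℝ) ^ 2) := by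
  obtain ⟨C, d0, h⟩ := Pool.Agent.Helper384.Bz.main3 K
  refine ⟨Real.exp C, max d0 1, Real.exp_pos _, fun d n hd h1 h2 => ?_⟩
  have hd0 : d0 ≤ d := le_trans (le_max_left _ _) hd
  have hd1 : 1 ≤ d := le_trans (le_max_right _ _) hd
  have hdpos : (0 : ℝ) < d := by exact_mod_cast hd1
  have hL0 : (0 : ℝ) ≤ Real.log n := Real.log_natCast_nonneg n
  have hR : (0 : ℝ) < 2 + Real.log n / d := by positivity
  obtain ⟨hpos, hlo, hup⟩ := h d n hd0 h1 h2
  rw [← pc_eq, ← Hc_eq] at hlo hup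
  rw [← pc_eq] at hpos
  have hlog : Real.log (1 / pc n d 2) = - Real.log (pc n d 2) := by
    rw [one_div, Real.log_inv]
  rw [hlog] at hlo hup
  have he : Real.exp (-(Hc n d)) / (d : ℝ) ^ 2 = Real.exp (-(Hc n d) - 2 * Real.log d) := by
    rw [Real.exp_sub]
    congr 1
    rw [two_mul, Real.exp_add, Real.exp_log hdpos, sq]
  have h4 : (2 + Real.log n / d) ^ 4 = Real.exp (4 * Real.log (2 + Real.log n / d)) := by
    rw [show (4 : ℝ) * Real.log (2 + Real.log n / d) =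
      ((4 : ℕ) : ℝ) * Real.log (2 + Real.log n / d) by norm_num, Real.exp_nat_mul,
      Real.exp_log hR]
  rw [he, h4, ← Real.exp_neg, ← Real.exp_add, ← Real.exp_add, ← Real.exp_add]
  constructor
  · rw [← Real.le_log_iff_exp_le hpos]
    linarith
  · rw [← Real.log_le_iff_le_exp hpos]
    linarith

end Pool.Agent.Results.MP_8501c9_pr.GeneralRange
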