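import Mathlib
import Pool.Agent.Helper384.BzL8

set_option autoImplicit false
open Finset Classical

namespace Pool.Agent.Results.MP_8501c9_pr.LogAsymptotics

/-- vertex set of the grid graph `ℤ_n^d` -/
abbrev V (n d : ℕ) : Type := Fin d → Fin n

/-- adjacency in the grid: equal in all coordinates but one, where they differ by exactly `1` -/
def Adj {n d : ℕ} (x y : V n d) : Prop :=
  ∃ i, (∀ j, j ≠ i → x j = y j) ∧ ((x i : ℕ) + 1 = (y i : ℕ) ∨ (y i : ℕ) + 1 = (x i : ℕ))

/-- one step of the `r`-neighbour bootstrap process: `A ∪ {v : v has at least r neighbours in A}` -/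
noncomputable def step {n d : ℕ} (r : ℕ) (A : Finset (V n d)) : Finset (V n d) :=
  A ∪ univ.filter (fun v => r ≤ (A.filter (fun u => Adj v u)).card)

/-- `A` percolates: every vertex is infected after finitely many steps -/
def Percolates {n d : ℕ} (r : ℕ) (A : Finset (V n d)) : Prop :=
  ∀ v : V n d, ∃ t : ℕ, v ∈ (step r)^[t] A

/-- probability that the `p`-random set percolates -/
noncomputable def percProb (n d r : ℕ) (p : ℝ) : ℝ :=
  ∑ A : Finset (V n d),
    if Percolates r A then p ^ A.card * (1 - p) ^ (Fintype.card (V n d) - A.card) else 0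

/-- the critical probability `p_c(ℤ_n^d, r)` -/
noncomputable def pc (n d r : ℕ) : ℝ := sInf {p : ℝ | 0 ≤ p ∧ p ≤ 1 ∧ 1 / 2 ≤ percProb n d r p}

/-- the volume `k^(d-r) (k+1)^r` of the most balanced box in dimension `d` with
`∑ (side length - 1) = j`, where `j = (k-1) d + r`, `0 ≤ r < d` -/
def vol (d j : ℕ) : ℕ := (j / d + 1) ^ (d - j % d) * (j / d + 2) ^ (j % d)

/-- `H_c(n,d)`: the value of `H` at which `∑_{j ≥ 0} max(0, H - log vol(d,j))` (a sum with finitely
many nonzero terms, continuous and strictly increasing in `H ≥ 0`) reaches `2 d log n` -/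
noncomputable def Hc (n d : ℕ) : ℝ :=
  sInf {H : ℝ | 0 ≤ H ∧
    2 * (d : ℝ) * Real.log n ≤ ∑' j : ℕ, max 0 (H - Real.log (vol d j))}

theorem pc_eq (n d r : ℕ) : pc n d r = Pool.Agent.Helper384.Bz.pc n d r := rfl

theorem Hc_eq (n d : ℕ) : Hc n d = Pool.Agent.Helper384.Bz.Hc n d := rfl

/-- **Logarithmic asymptotics of `p_c(ℤ_n^d, 2)` in the whole regime `d → ∞`, `d = O(log n)`.**
`p_c(ℤ_n^d,2) = exp(-H_c(n,d) + O(log d · log log n))`, where `H_c(n,d)` is the root of
`∑_{j ≥ 0} (H - log vol(d,j))_+ = 2 d log n`. -/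
theorem result (K : ℝ) : ∃ (C : ℝ) (d0 : ℕ), ∀ d n : ℕ, d0 ≤ d → (d : ℝ) ≤ K * Real.log n →
    0 < pc n d 2 ∧
      |Real.log (1 / pc n d 2) - Hc n d| ≤ C * Real.log d * Real.log (Real.log n) := by
  obtain ⟨C, d0, h⟩ := Pool.Agent.Helper384.Bz.main K
  refine ⟨C, d0, fun d n hd hn => ?_⟩
  rw [pc_eq, Hc_eq]
  exact h d n hd hn

end Pool.Agent.Results.MP_8501c9_pr.LogAsymptotics
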